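import Pool.Agent.Helper60.PPL.Pos

set_option autoImplicit false

/-! Reducedness of the words of the chain language, unique decomposition, generating functions. -/

namespace Pool.Agent.Helper60.PPL

open scoped ENNReal

variable {α : Type*}

abbrev Red (w : List (α × Bool)) : Prop := FreeGroup.IsReduced w

/-! ### reducedness -/

theorem red_append {v w : List (α × Bool)} :
    Red (v ++ w) ↔ Red v ∧ Red w ∧ ∀ a ∈ v.getLast?, ∀ b ∈ w.head?, a.1 = b.1 → a.2 = b.2 :=
  List.isChain_append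

theorem red_cons {a : α × Bool} {w : List (α × Bool)} :
    Red (a :: w) ↔ (∀ b ∈ w.head?, a.1 = b.1 → a.2 = b.2) ∧ Red w :=
  List.isChain_cons

theorem red_replicate (n : ℕ) (a : α × Bool) : Red (List.replicate n a) :=
  List.isChain_replicate_of_rel n (fun _ => rfl)

theorem red_tail {a : α × Bool} {w : List (α × Bool)} (h : Red (a :: w)) : Red w :=
  (red_cons.1 h).2

/-- a segment between two letters `x` -/
theorem red_sep {x : α} {b b' : Bool} {s w : List (α × Bool)} (hs : Red s)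
    (hsx : ∀ a ∈ s, a.1 ≠ x) (hne : s ≠ [] ∨ b = b') (h : Red ((x, b') :: w)) :
    Red ((x, b) :: (s ++ (x, b') :: w)) := by
  have e : (x, b) :: (s ++ (x, b') :: w) = ((x, b) :: s) ++ ((x, b') :: w) := rfl
  rw [e, red_append]
  refine ⟨?_, h, ?_⟩
  · rw [red_cons]
    refine ⟨fun a ha hax => ?_, hs⟩
    exact absurd hax.symm (hsx a (List.mem_of_mem_head? ha))
  · intro a ha c hc hac
    rw [List.head?_cons, Option.mem_some] at hc
    subst hc
    rcases List.eq_nil_or_concat s with rfl | ⟨s', d, rfl⟩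
    · rw [List.getLast?_singleton, Option.mem_some] at ha
      subst ha
      rcases hne with hne | hne
      · exact absurd rfl hne
      · exact hne
    · exfalso
      have : a = d := by
        have h1 : ((x, b) :: (s'.concat d)).getLast? = some d := by
          rw [List.concat_eq_append, ← List.cons_append, List.getLast?_append]
          simp
        rw [h1, Option.mem_some] at ha
        exact ha.symm
      subst this
      exact hsx a (by simp) hac

section levels

variable {x : α} {S C : Set (List (α × Bool))}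

theorem V_red (hS : ∀ s ∈ S, Red s ∧ ∀ a ∈ s, a.1 ≠ x)
    (hC : ∀ s ∈ C, s ≠ [] ∧ Red s ∧ ∀ a ∈ s, a.1 ≠ x) {b : Bool} {w : List (α × Bool)}
    (h : V x S C b w) : Red ((x, b) :: w) := by
  induction h with
  | endp s hs h =>
    rw [red_cons]
    exact ⟨fun a ha hax => absurd hax.symm ((hS s hs).2 a (List.mem_of_mem_head? ha)), (hS s hs).1⟩
  | endm c hc =>
    rw [red_cons]
    exact ⟨fun a ha hax => absurd hax.symm ((hC c hc).2.2 a (List.mem_of_mem_head? ha)),
      (hC c hc).2.1⟩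
  | pp s w hs hw ih => exact red_sep (hS s hs).1 (hS s hs).2 (Or.inr rfl) ih
  | pm c w hc hw ih => exact red_sep (hC c hc).2.1 (hC c hc).2.2 (Or.inl (hC c hc).1) ih
  | mp c w hc hw ih => exact red_sep (hC c hc).2.1 (hC c hc).2.2 (Or.inl (hC c hc).1) ih

theorem P_red (hS : ∀ s ∈ S, Red s ∧ ∀ a ∈ s, a.1 ≠ x)
    (hC : ∀ s ∈ C, s ≠ [] ∧ Red s ∧ ∀ a ∈ s, a.1 ≠ x) {b : Bool} {w : List (α × Bool)}
    (h : P x S C b w) : Red ((x, b) :: w) := by
  induction h with
  | nil => exact List.isChain_singleton _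
  | pp s w hs hw ih => exact red_sep (hS s hs).1 (hS s hs).2 (Or.inr rfl) ih
  | pm c w hc hw ih => exact red_sep (hC c hc).2.1 (hC c hc).2.2 (Or.inl (hC c hc).1) ih
  | mp c w hc hw ih => exact red_sep (hC c hc).2.1 (hC c hc).2.2 (Or.inl (hC c hc).1) ih

theorem V_last (hS : ∀ s ∈ S, Red s ∧ ∀ a ∈ s, a.1 ≠ x)
    (hC : ∀ s ∈ C, s ≠ [] ∧ Red s ∧ ∀ a ∈ s, a.1 ≠ x) {b : Bool} {w : List (α × Bool)}
    (h : V x S C b w) : ∃ v a, w = v ++ [a] ∧ a.1 ≠ x := by
  induction h with
  | endp s hs h =>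
    rcases List.eq_nil_or_concat s with rfl | ⟨s', d, rfl⟩
    · exact absurd rfl h
    · exact ⟨s', d, by simp, (hS _ hs).2 d (by simp)⟩
  | endm c hc =>
    rcases List.eq_nil_or_concat c with rfl | ⟨s', d, rfl⟩
    · exact absurd rfl (hC _ hc).1
    · exact ⟨s', d, by simp, (hC _ hc).2.2 d (by simp)⟩
  | pp s w hs hw ih =>
    obtain ⟨v, a, rfl, ha⟩ := ih
    exact ⟨s ++ (x, true) :: v, a, by simp, ha⟩
  | pm s w hs hw ih =>
    obtain ⟨v, a, rfl, ha⟩ := ih
    exact ⟨s ++ (x, false) :: v, a, by simp, ha⟩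
  | mp s w hs hw ih =>
    obtain ⟨v, a, rfl, ha⟩ := ih
    exact ⟨s ++ (x, true) :: v, a, by simp, ha⟩

theorem U_head (hS : ∀ s ∈ S, Red s ∧ ∀ a ∈ s, a.1 ≠ x)
    (hC : ∀ s ∈ C, s ≠ [] ∧ Red s ∧ ∀ a ∈ s, a.1 ≠ x) {w : List (α × Bool)}
    (h : w ∈ U x S C) : ∃ a v, w = a :: v ∧ a.1 ≠ x := by
  rcases h with ⟨h1, h2⟩ | ⟨s, w, h1, h2, h3, rfl⟩ | ⟨c, w, h1, h2, rfl⟩
  · obtain ⟨a, v, rfl⟩ := List.exists_cons_of_ne_nil h2
    exact ⟨a, v, rfl, (hS _ h1).2 a (by simp)⟩
  · obtain ⟨a, v, rfl⟩ := List.exists_cons_of_ne_nil h2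
    exact ⟨a, v ++ (x, true) :: w, rfl, (hS _ h1).2 a (by simp)⟩
  · obtain ⟨a, v, rfl⟩ := List.exists_cons_of_ne_nil (hC _ h1).1
    exact ⟨a, v ++ (x, false) :: w, rfl, (hC _ h1).2.2 a (by simp)⟩

theorem T_red_aux (hS : ∀ s ∈ S, Red s ∧ ∀ a ∈ s, a.1 ≠ x)
    (hC : ∀ s ∈ C, s ≠ [] ∧ Red s ∧ ∀ a ∈ s, a.1 ≠ x) {u : List (α × Bool)}
    (h : u ∈ U x S C) (n : ℕ) (b : Bool) (m : ℕ) (b' : Bool) :
    Red (List.replicate n (x, b) ++ (u ++ List.replicate m (x, b'))) := by
  have hu : Red u := red_tail (V_red hS hC (U_V h))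
  obtain ⟨a, v, hav, hax⟩ := U_head hS hC h
  obtain ⟨v', a', hav', hax'⟩ := V_last hS hC (U_V h)
  rw [red_append, red_append]
  refine ⟨red_replicate _ _, ⟨hu, red_replicate _ _, ?_⟩, ?_⟩
  · intro c hc d hd hcd
    exfalso
    rw [hav', List.getLast?_append] at hc
    simp at hc
    have hd' : d = (x, b') := List.eq_of_mem_replicate (List.mem_of_mem_head? hd)
    rw [hd'] at hcd
    subst hc
    exact hax' hcd
  · intro c hc d hd hcd
    exfalso
    have hc' : c = (x, b) := List.eq_of_mem_replicate (List.mem_of_mem_getLast? hc)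
    rw [hav] at hd
    simp at hd
    rw [hc'] at hcd
    subst hd
    exact hax hcd.symm

end levels

theorem Cc_good (x : α) (l : List α) (hx : x ∉ l) :
    ∀ s ∈ Cc l, s ≠ [] ∧ Red s ∧ ∀ a ∈ s, a.1 ≠ x := by
  intro s hs
  refine ⟨?_, ?_, fun a ha h => hx (by rw [← h]; exact Cc_letters l s hs a ha)⟩
  · cases l with
    | nil => exact absurd hs (by simp [Cc])
    | cons c l => obtain ⟨n, rfl⟩ := hs; simp
  · cases l with
    | nil => exact absurd hs (by simp [Cc])
    | cons c l => obtain ⟨n, rfl⟩ := hs; exact red_replicate _ _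

theorem T_good : ∀ (l : List α), l.Nodup → ∀ s ∈ T l, Red s
  | [], _ => by
    intro s hs
    rw [show s = [] from hs]
    exact List.isChain_nil
  | x :: l, hn => by
    rw [List.nodup_cons] at hn
    have ih := T_good l hn.2
    rintro s (⟨n, b, rfl⟩ | ⟨n, b, u, m, b', hu, rfl⟩)
    · exact red_replicate _ _
    · exact T_red_aux (fun s hs => ⟨ih s hs, fun a ha h => hn.1 (by rw [← h]; exact T_letters l s hs a ha)⟩)
        (Cc_good x l hn.1) hu n b m b'

theorem T_good' (x : α) (l : List α) (hn : (x :: l).Nodup) :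
    ∀ s ∈ T l, Red s ∧ ∀ a ∈ s, a.1 ≠ x := by
  rw [List.nodup_cons] at hn
  exact fun s hs => ⟨T_good l hn.2 s hs, fun a ha h => hn.1 (by rw [← h]; exact T_letters l s hs a ha)⟩

/-! ### unique decomposition -/

theorem split {x : α} : ∀ (s s' : List (α × Bool)) (b b' : Bool) (w w' : List (α × Bool)),
    (∀ a ∈ s, a.1 ≠ x) → (∀ a ∈ s', a.1 ≠ x) → s ++ (x, b) :: w = s' ++ (x, b') :: w' →
    s = s' ∧ b = b' ∧ w = w'
  | [], [], b, b', w, w', _, _, h => by
    simp at h
    exact ⟨rfl, h.1, h.2⟩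
  | [], a :: s', b, b', w, w', _, h2, h => by
    exfalso
    simp at h
    exact h2 a (by simp) (by rw [← h.1])
  | a :: s, [], b, b', w, w', h1, _, h => by
    exfalso
    simp at h
    exact h1 a (by simp) (by rw [h.1])
  | a :: s, a' :: s', b, b', w, w', h1, h2, h => by
    rw [List.cons_append, List.cons_append, List.cons.injEq] at h
    obtain ⟨e1, e2, e3⟩ := split s s' b b' w w' (fun c hc => h1 c (by simp [hc]))
      (fun c hc => h2 c (by simp [hc])) h.2
    exact ⟨by rw [h.1, e1], e2, e3⟩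

/-- runs -/
def rn (x : α) : ℕ ⊕ ℕ → List (α × Bool)
  | Sum.inl n => List.replicate n (x, true)
  | Sum.inr n => List.replicate (n + 1) (x, false)

theorem rn_mem (x : α) (i : ℕ ⊕ ℕ) : ∀ a ∈ rn x i, a.1 = x := by
  intro a ha
  cases i with
  | inl n => rw [List.eq_of_mem_replicate ha]
  | inr n => rw [List.eq_of_mem_replicate ha]

theorem rn_inj (x : α) : Function.Injective (rn x) := by
  intro i j h
  cases i with
  | inl n =>
    cases j with
    | inl m =>
      have := congrArg List.length h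
      simp only [rn, List.length_replicate] at this
      rw [this]
    | inr m =>
      exfalso
      simp only [rn] at h
      have h2 : (x, false) ∈ List.replicate n (x, true) := by
        rw [h]; simp
      have := List.eq_of_mem_replicate h2
      simp at this
  | inr n =>
    cases j with
    | inl m =>
      exfalso
      simp only [rn] at h
      have h2 : (x, false) ∈ List.replicate m (x, true) := by
        rw [← h]; simp
      have := List.eq_of_mem_replicate h2
      simp at this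
    | inr m =>
      have := congrArg List.length h
      simp only [rn, List.length_replicate] at this
      rw [show n = m by omega]

theorem takeWhile_run (x : α) (p : α × Bool → Bool) (hp : ∀ a, p a = true ↔ a.1 = x)
    (r : List (α × Bool)) (hr : ∀ a ∈ r, a.1 = x) (a : α × Bool) (v : List (α × Bool))
    (ha : a.1 ≠ x) : (r ++ a :: v).takeWhile p = r := by
  rw [List.takeWhile_append_of_pos (fun b hb => (hp b).2 (hr b hb))]
  have : p a = false := by
    rw [Bool.eq_false_iff]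
    intro h
    exact ha ((hp a).1 h)
  rw [List.takeWhile_cons_of_neg (by simp [this]), List.append_nil]

theorem run_split (x : α) (r r' : List (α × Bool)) (hr : ∀ a ∈ r, a.1 = x)
    (hr' : ∀ a ∈ r', a.1 = x) (a a' : α × Bool) (v v' : List (α × Bool))
    (ha : a.1 ≠ x) (ha' : a'.1 ≠ x) (h : r ++ a :: v = r' ++ a' :: v') :
    r = r' ∧ a :: v = a' :: v' := by
  classical
  have e : r = r' := by
    have h1 := takeWhile_run x (fun a => decide (a.1 = x)) (by simp) r hr a v ha
    have h2 := takeWhile_run x (fun a => decide (a.1 = x)) (by simp) r' hr' a' v' ha'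
    rw [← h1, ← h2, h]
  subst e
  exact ⟨rfl, List.append_cancel_left h⟩

theorem run_split_end (x : α) (r r' : List (α × Bool)) (hr : ∀ a ∈ r, a.1 = x)
    (hr' : ∀ a ∈ r', a.1 = x) (a a' : α × Bool) (v v' : List (α × Bool))
    (ha : a.1 ≠ x) (ha' : a'.1 ≠ x) (h : (v ++ [a]) ++ r = (v' ++ [a']) ++ r') :
    v ++ [a] = v' ++ [a'] ∧ r = r' := by
  have h1 := congrArg List.reverse h
  simp only [List.reverse_append, List.reverse_cons, List.reverse_nil, List.nil_append,
    List.cons_append] at h1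
  obtain ⟨e1, e2⟩ := run_split x r.reverse r'.reverse (by simpa using hr) (by simpa using hr')
    a a' v.reverse v'.reverse ha ha' h1
  have e3 : r = r' := List.reverse_injective e1
  subst e3
  exact ⟨List.append_cancel_right h, rfl⟩

/-! ### generating functions -/

/-- generating function of a set of words -/
noncomputable def gf (A : Set (List (α × Bool))) (z : ℝ≥0∞) : ℝ≥0∞ := ∑' w : A, z ^ w.1.length

theorem le_gf {ι : Type*} (A : Set (List (α × Bool))) (z : ℝ≥0∞) (f : ι → List (α × Bool))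
    (hf : Function.Injective f) (hA : ∀ i, f i ∈ A) : ∑' i, z ^ (f i).length ≤ gf A z := by
  have : Function.Injective (fun i => (⟨f i, hA i⟩ : A)) := by
    intro i j h
    exact hf (congrArg Subtype.val h)
  exact ENNReal.tsum_comp_le_tsum_of_injective this (fun w : A => z ^ w.1.length)

theorem tsum_sum' {ι κ : Type*} (f : ι ⊕ κ → ℝ≥0∞) :
    ∑' i, f i = (∑' i, f (Sum.inl i)) + ∑' i, f (Sum.inr i) :=
  Summable.tsum_sum ENNReal.summable ENNReal.summable

/-- concatenation through a letter -/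
theorem tsum_cat (A B : Set (List (α × Bool))) (z : ℝ≥0∞) (a : α × Bool) :
    ∑' p : A × B, z ^ (p.1.1 ++ a :: p.2.1).length = gf A z * z * gf B z := by
  rw [ENNReal.tsum_prod']
  unfold gf
  rw [mul_assoc, ← ENNReal.tsum_mul_right]
  refine tsum_congr fun u => ?_
  rw [← ENNReal.tsum_mul_left, ← ENNReal.tsum_mul_left]
  refine tsum_congr fun v => ?_
  simp only [List.length_append, List.length_cons]
  rw [pow_add, pow_succ, mul_comm (z ^ v.1.length) z]

section ineq

variable {x : α} {S C : Set (List (α × Bool))} (z : ℝ≥0∞)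

/-- nonempty words of a set -/
def ne (S : Set (List (α × Bool))) : Set (List (α × Bool)) := {s | s ∈ S ∧ s ≠ []}

theorem gf_ne (h : ([] : List (α × Bool)) ∈ S) : 1 + gf (ne S) z ≤ gf S z := by
  have := le_gf (ι := Unit ⊕ ne S) S z (Sum.elim (fun _ => []) (fun s => s.1)) ?_ ?_
  · rw [tsum_sum'] at this
    simpa [gf] using this
  · rintro (i | i) (j | j) hij
    · rfl
    · exact absurd hij.symm j.2.2
    · exact absurd hij i.2.2
    · simp at hij
      rw [Subtype.ext hij]
  · rintro (i | i)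
    · exact h
    · exact i.2.1

theorem not_mem_of (hS : ∀ s ∈ S, ∀ a ∈ s, a.1 ≠ x) {s : List (α × Bool)} (hs : s ∈ S) (u w :
    List (α × Bool)) (b : Bool) : s ≠ u ++ (x, b) :: w := by
  intro h
  exact hS s hs (x, b) (by rw [h]; simp) rfl

theorem gf_three (A₀ : Set (List (α × Bool))) (A₁ A₂ B₁ B₂ A : Set (List (α × Bool)))
    (h0 : ∀ s ∈ A₀, ∀ a ∈ s, a.1 ≠ x) (h1 : ∀ s ∈ A₁, ∀ a ∈ s, a.1 ≠ x)
    (h2 : ∀ s ∈ A₂, ∀ a ∈ s, a.1 ≠ x) (m0 : ∀ s ∈ A₀, s ∈ A)
    (m1 : ∀ s ∈ A₁, ∀ w ∈ B₁, s ++ (x, true) :: w ∈ A)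
    (m2 : ∀ s ∈ A₂, ∀ w ∈ B₂, s ++ (x, false) :: w ∈ A) :
    gf A₀ z + gf A₁ z * z * gf B₁ z + gf A₂ z * z * gf B₂ z ≤ gf A z := by
  have := le_gf (ι := A₀ ⊕ ((A₁ × B₁) ⊕ (A₂ × B₂))) A z
    (Sum.elim (fun s => s.1) (Sum.elim (fun p => p.1.1 ++ (x, true) :: p.2.1)
      (fun p => p.1.1 ++ (x, false) :: p.2.1))) ?_ ?_
  · rw [tsum_sum', tsum_sum'] at this
    simp only [Sum.elim_inl, Sum.elim_inr] at this
    rw [tsum_cat, tsum_cat, ← add_assoc] at this
    exact this
  · rintro (i | i | i) (j | j | j) hij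
    · simp at hij
      rw [Subtype.ext hij]
    · exact absurd hij (not_mem_of h0 i.2 _ _ _)
    · exact absurd hij (not_mem_of h0 i.2 _ _ _)
    · exact absurd hij.symm (not_mem_of h0 j.2 _ _ _)
    · simp only [Sum.elim_inl, Sum.elim_inr] at hij
      obtain ⟨e1, _, e3⟩ := split _ _ _ _ _ _ (h1 _ i.1.2) (h1 _ j.1.2) hij
      rw [Prod.ext (Subtype.ext e1) (Subtype.ext e3)]
    · simp only [Sum.elim_inl, Sum.elim_inr] at hij
      obtain ⟨_, e2, _⟩ := split _ _ _ _ _ _ (h1 _ i.1.2) (h2 _ j.1.2) hij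
      simp at e2
    · exact absurd hij.symm (not_mem_of h0 j.2 _ _ _)
    · simp only [Sum.elim_inl, Sum.elim_inr] at hij
      obtain ⟨_, e2, _⟩ := split _ _ _ _ _ _ (h2 _ i.1.2) (h1 _ j.1.2) hij
      simp at e2
    · simp only [Sum.elim_inl, Sum.elim_inr] at hij
      obtain ⟨e1, _, e3⟩ := split _ _ _ _ _ _ (h2 _ i.1.2) (h2 _ j.1.2) hij
      rw [Prod.ext (Subtype.ext e1) (Subtype.ext e3)]
  · rintro (i | i | i)
    · exact m0 _ i.2
    · exact m1 _ i.1.2 _ i.2.2
    · exact m2 _ i.1.2 _ i.2.2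

theorem gf_two (A₁ A₂ : Set (List (α × Bool))) (x : α) (h1 : ∀ s ∈ A₁, ∀ a ∈ s, a.1 ≠ x)
    (B A : Set (List (α × Bool))) (h2 : ∀ s ∈ A₂, ∀ a ∈ s, a.1 ≠ x)
    (m1 : ∀ s ∈ A₁, s ∈ A) (m2 : ∀ s ∈ A₂, ∀ w ∈ B, s ++ (x, true) :: w ∈ A) :
    gf A₁ z + gf A₂ z * z * gf B z ≤ gf A z := by
  have h := gf_three (x := x) z A₁ A₂ ∅ B ∅ A h1 h2 (by simp) m1 m2 (by simp)
  refine le_trans ?_ h
  exact le_add_right le_rfl

theorem gf_Vt (hS : ∀ s ∈ S, ∀ a ∈ s, a.1 ≠ x) (hC : ∀ s ∈ C, ∀ a ∈ s, a.1 ≠ x) :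
    gf (ne S) z + gf S z * z * gf {w | V x S C true w} z + gf C z * z * gf {w | V x S C false w} z
      ≤ gf {w | V x S C true w} z :=
  gf_three (x := x) z _ _ _ _ _ _ (fun s hs => hS s hs.1) hS hC (fun s hs => V.endp s hs.1 hs.2)
    (fun s hs w hw => V.pp s w hs hw) (fun s hs w hw => V.pm s w hs hw)

theorem gf_Vf (hC : ∀ s ∈ C, ∀ a ∈ s, a.1 ≠ x) :
    gf C z + gf C z * z * gf {w | V x S C true w} z ≤ gf {w | V x S C false w} z :=
  gf_two z _ _ x hC _ _ hC (fun s hs => V.endm s hs) (fun s hs w hw => V.mp s w hs hw)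

theorem gf_U (hS : ∀ s ∈ S, ∀ a ∈ s, a.1 ≠ x) (hC : ∀ s ∈ C, ∀ a ∈ s, a.1 ≠ x) :
    gf (ne S) z + gf (ne S) z * z * gf {w | V x S C true w} z +
      gf C z * z * gf {w | V x S C false w} z ≤ gf (U x S C) z :=
  gf_three (x := x) z _ _ _ _ _ _ (fun s hs => hS s hs.1) (fun s hs => hS s hs.1) hC
    (fun s hs => Or.inl hs) (fun s hs w hw => Or.inr (Or.inl ⟨s, w, hs.1, hs.2, hw, rfl⟩))
    (fun s hs w hw => Or.inr (Or.inr ⟨s, w, hs, hw, rfl⟩))

theorem gf_Pt (hS : ∀ s ∈ S, ∀ a ∈ s, a.1 ≠ x) (hC : ∀ s ∈ C, ∀ a ∈ s, a.1 ≠ x) :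
    1 + gf S z * z * gf {w | P x S C true w} z + gf C z * z * gf {w | P x S C false w} z
      ≤ gf {w | P x S C true w} z := by
  have h := gf_three (x := x) z {[]} S C {w | P x S C true w} {w | P x S C false w}
    {w | P x S C true w} (by simp) hS hC (by
      intro s hs
      rw [show s = [] from hs]
      exact P.nil) (fun s hs w hw => P.pp s w hs hw) (fun s hs w hw => P.pm s w hs hw)
  refine le_trans (le_of_eq ?_) h
  congr 2
  simp [gf]

theorem gf_Pf (hC : ∀ s ∈ C, ∀ a ∈ s, a.1 ≠ x) :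
    gf C z * z * gf {w | P x S C true w} z ≤ gf {w | P x S C false w} z := by
  have h := gf_two z ∅ C x (by simp) {w | P x S C true w} {w | P x S C false w} hC (by simp)
    (fun s hs w hw => P.mp s w hs hw)
  refine le_trans ?_ h
  exact le_add_left le_rfl

/-- runs -/
theorem tsum_rn (x : α) : ∑' i, z ^ (rn x i).length = (1 - z)⁻¹ + z * (1 - z)⁻¹ := by
  rw [tsum_sum']
  simp only [rn, List.length_replicate]
  rw [ENNReal.tsum_geometric, ENNReal.tsum_geometric_add_one]

theorem gf_Cc (c : α) (l : List α) : z * (1 - z)⁻¹ ≤ gf (Cc (c :: l)) z := by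
  have := le_gf (Cc (c :: l)) z (fun n : ℕ => List.replicate (n + 1) (c, true)) ?_ ?_
  · simp only [List.length_replicate] at this
    rw [ENNReal.tsum_geometric_add_one] at this
    exact this
  · intro i j h
    have := congrArg List.length h
    simpa using this
  · intro n
    exact ⟨n, rfl⟩

/-- the next level -/
theorem gf_T (l : List α) (hn : (x :: l).Nodup) :
    z * (1 - z)⁻¹ + z * (1 - z)⁻¹ + ((1 - z)⁻¹ + z * (1 - z)⁻¹) * gf (U x (T l) (Cc l)) z *
      ((1 - z)⁻¹ + z * (1 - z)⁻¹) ≤ gf (ne (T (x :: l))) z := by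
  have hS := T_good' x l hn
  have hC := Cc_good x l (List.nodup_cons.1 hn).1
  have := le_gf (ι := (ℕ ⊕ ℕ) ⊕ ((ℕ ⊕ ℕ) × (U x (T l) (Cc l)) × (ℕ ⊕ ℕ))) (ne (T (x :: l))) z
    (Sum.elim (Sum.elim (fun n => List.replicate (n + 1) (x, true))
      (fun n => List.replicate (n + 1) (x, false)))
      (fun p => rn x p.1 ++ (p.2.1.1 ++ rn x p.2.2))) ?_ ?_
  · rw [tsum_sum', tsum_sum'] at this
    simp only [Sum.elim_inl, Sum.elim_inr, List.length_replicate] at this
    rw [ENNReal.tsum_geometric_add_one] at this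
    refine le_trans (le_of_eq ?_) this
    congr 1
    rw [← tsum_rn z x, mul_assoc, ENNReal.tsum_prod', ← ENNReal.tsum_mul_right]
    refine tsum_congr fun i => ?_
    rw [ENNReal.tsum_prod', gf, ← ENNReal.tsum_mul_right, ← ENNReal.tsum_mul_left]
    refine tsum_congr fun u => ?_
    rw [← ENNReal.tsum_mul_left, ← ENNReal.tsum_mul_left]
    refine tsum_congr fun j => ?_
    simp only [List.length_append]
    rw [pow_add, pow_add]
  · rintro ((i | i) | i) ((j | j) | j) hij
    · have := congrArg List.length hij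
      simp at this
      rw [this]
    · exfalso
      simp only [Sum.elim_inl, Sum.elim_inr] at hij
      have h2 : (x, false) ∈ List.replicate (i + 1) (x, true) := by
        rw [hij]; simp
      have := List.eq_of_mem_replicate h2
      simp at this
    · exfalso
      simp only [Sum.elim_inl, Sum.elim_inr] at hij
      obtain ⟨a, v, hav, hax⟩ := U_head hS hC j.2.1.2
      have h2 : a ∈ List.replicate (i + 1) (x, true) := by
        rw [hij, hav]; simp
      rw [List.eq_of_mem_replicate h2] at hax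
      exact hax rfl
    · exfalso
      simp only [Sum.elim_inl, Sum.elim_inr] at hij
      have h2 : (x, false) ∈ List.replicate (j + 1) (x, true) := by
        rw [← hij]; simp
      have := List.eq_of_mem_replicate h2
      simp at this
    · have := congrArg List.length hij
      simp at this
      rw [this]
    · exfalso
      simp only [Sum.elim_inl, Sum.elim_inr] at hij
      obtain ⟨a, v, hav, hax⟩ := U_head hS hC j.2.1.2
      have h2 : a ∈ List.replicate (i + 1) (x, false) := by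
        rw [hij, hav]; simp
      rw [List.eq_of_mem_replicate h2] at hax
      exact hax rfl
    · exfalso
      simp only [Sum.elim_inl, Sum.elim_inr] at hij
      obtain ⟨a, v, hav, hax⟩ := U_head hS hC i.2.1.2
      have h2 : a ∈ List.replicate (j + 1) (x, true) := by
        rw [← hij, hav]; simp
      rw [List.eq_of_mem_replicate h2] at hax
      exact hax rfl
    · exfalso
      simp only [Sum.elim_inl, Sum.elim_inr] at hij
      obtain ⟨a, v, hav, hax⟩ := U_head hS hC i.2.1.2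
      have h2 : a ∈ List.replicate (j + 1) (x, false) := by
        rw [← hij, hav]; simp
      rw [List.eq_of_mem_replicate h2] at hax
      exact hax rfl
    · simp only [Sum.elim_inr] at hij
      obtain ⟨i1, u, i2⟩ := i
      obtain ⟨j1, v, j2⟩ := j
      simp only at hij
      obtain ⟨a, t, hat, hax⟩ := U_head hS hC u.2
      obtain ⟨a', t', hat', hax'⟩ := U_head hS hC v.2
      have e0 : rn x i1 ++ a :: (t ++ rn x i2) = rn x j1 ++ a' :: (t' ++ rn x j2) := by
        rw [← List.cons_append, ← List.cons_append, ← hat, ← hat']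
        exact hij
      obtain ⟨e1, e2⟩ := run_split x _ _ (rn_mem x i1) (rn_mem x j1) a a' _ _ hax hax' e0
      rw [← List.cons_append, ← List.cons_append, ← hat, ← hat'] at e2
      obtain ⟨q, c, hqc, hcx⟩ := V_last hS hC (U_V u.2)
      obtain ⟨q', c', hqc', hcx'⟩ := V_last hS hC (U_V v.2)
      rw [hqc, hqc'] at e2
      obtain ⟨e3, e4⟩ := run_split_end x _ _ (rn_mem x i2) (rn_mem x j2) c c' q q' hcx hcx' e2
      rw [← hqc, ← hqc'] at e3
      rw [rn_inj x e1, rn_inj x e4, Subtype.ext e3]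
  · rintro ((i | i) | ⟨i, u, j⟩)
    · exact ⟨Or.inl ⟨i + 1, true, rfl⟩, by simp⟩
    · exact ⟨Or.inl ⟨i + 1, false, rfl⟩, by simp⟩
    · have hr : ∀ i : ℕ ⊕ ℕ, ∃ n b, rn x i = List.replicate n (x, b) := by
        rintro (n | n)
        · exact ⟨n, true, rfl⟩
        · exact ⟨n + 1, false, rfl⟩
      obtain ⟨n, b, e1⟩ := hr i
      obtain ⟨m, b', e2⟩ := hr j
      refine ⟨Or.inr ⟨n, b, u.1, m, b', u.2, ?_⟩, ?_⟩
      · simp only [Sum.elim_inr]
        rw [e1, e2]
      · simp only [Sum.elim_inr]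
        obtain ⟨a, t, hat, hax⟩ := U_head hS hC u.2
        rw [hat]
        simp

end ineq

end Pool.Agent.Helper60.PPL
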