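import Pool.Agent.Helper60.PPL.Num

set_option autoImplicit false

/-! The growth rate of the potentially positive elements: lower bound. -/

namespace Pool.Agent.Helper60.PPL

open scoped ENNReal
open Filter

/-- potentially positive elements of length `n` -/
def PP (r n : ℕ) : Set (FreeGroup (Fin r)) :=
  {u | u.norm = n ∧ ∃ f : FreeGroup (Fin r) ≃* FreeGroup (Fin r), ∀ x ∈ (f u).toWord, x.2 = true}

theorem PP_inj (r n : ℕ) : Set.InjOn (FreeGroup.toWord (α := Fin r)) (PP r n) :=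
  fun _ _ _ _ h => FreeGroup.toWord_injective h

theorem PP_maps (r n : ℕ) : ∀ u ∈ PP r n, u.toWord ∈ {w : List (Fin r × Bool) | w.length = n} :=
  fun _ hu => hu.1

theorem PP_finite (r n : ℕ) : (PP r n).Finite :=
  Set.Finite.of_injOn (PP_maps r n) (PP_inj r n) (List.finite_length_eq _ n)

theorem PP_card_le (r n : ℕ) : (PP r n).ncard ≤ (r * 2) ^ n := by
  have h1 := Set.ncard_le_ncard_of_injOn _ (PP_maps r n) (PP_inj r n)
    (List.finite_length_eq (Fin r × Bool) n)
  refine le_trans h1 (le_of_eq ?_)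
  rw [← Nat.card_coe_set_eq]
  have : Nat.card (List.Vector (Fin r × Bool) n) = (r * 2) ^ n := by
    rw [Nat.card_eq_fintype_card, card_vector]
    simp
  exact this

theorem tsum_PP {r : ℕ} {z : ℝ} (x c : Fin r) (l : List (Fin r))
    (hn : (x :: c :: l).Nodup) (h0 : 0 < z) (h1 : z < 1)
    (hr : ∀ k < l.length, rho z (sg z k) < 1) (ht : 1 ≤ rho z (sg z l.length)) :
    ∑' n : ℕ, ((PP r n).ncard : ℝ≥0∞) * ENNReal.ofReal z ^ n = ⊤ := by
  have h2 := gf_top h0 h1 x c l hn hr ht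
  set L : Set (List (Fin r × Bool)) := {w | P x (T (c :: l)) (Cc (c :: l)) true w} with hL
  have hz' : ENNReal.ofReal z ≠ 0 := by rw [Ne, ENNReal.ofReal_eq_zero]; linarith
  have hred : ∀ w ∈ L, Red ((x, true) :: w) := fun w hw =>
    P_red (T_good' x (c :: l) hn) (Cc_good x (c :: l) (List.nodup_cons.1 hn).1) hw
  have hto : ∀ w ∈ L, (FreeGroup.mk ((x, true) :: w)).toWord = (x, true) :: w := by
    intro w hw
    rw [FreeGroup.toWord_mk, (hred w hw).reduce_eq]
  have hmem : ∀ w : L, (FreeGroup.mk ((x, true) :: w.1) : FreeGroup (Fin r)) ∈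
      PP r (w.1.length + 1) := by
    intro w
    refine ⟨?_, ?_⟩
    · rw [FreeGroup.norm, hto w.1 w.2, List.length_cons]
    · obtain ⟨ψ, hψ⟩ := top_pos x c l hn w.1 w.2
      exact ⟨ψ, hψ.toWord⟩
  have h3 : ∑' w : L, ENNReal.ofReal z ^ (w.1.length + 1) ≤
      ∑' q : (Σ n : ℕ, PP r n), ENNReal.ofReal z ^ q.1 := by
    have hinj : Function.Injective (fun w : L => (⟨w.1.length + 1,
        ⟨FreeGroup.mk ((x, true) :: w.1), hmem w⟩⟩ : Σ n : ℕ, PP r n)) := by
      intro v w hvw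
      have e : (FreeGroup.mk ((x, true) :: v.1) : FreeGroup (Fin r)) =
          FreeGroup.mk ((x, true) :: w.1) :=
        congrArg (fun q : (Σ n : ℕ, PP r n) => (q.2 : FreeGroup (Fin r))) hvw
      have e2 := congrArg FreeGroup.toWord e
      rw [hto v.1 v.2, hto w.1 w.2] at e2
      exact Subtype.ext (List.cons.inj e2).2
    exact ENNReal.tsum_comp_le_tsum_of_injective hinj
      (fun q : (Σ n : ℕ, PP r n) => ENNReal.ofReal z ^ q.1)
  have h4 : ∑' w : L, ENNReal.ofReal z ^ (w.1.length + 1) = ⊤ := by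
    simp only [pow_succ]
    rw [ENNReal.tsum_mul_right]
    change gf L (ENNReal.ofReal z) * _ = ⊤
    rw [h2, ENNReal.top_mul hz']
  rw [h4, top_le_iff, ENNReal.tsum_sigma'] at h3
  rw [← h3]
  refine tsum_congr fun n => ?_
  change _ = ∑' (_ : PP r n), ENNReal.ofReal z ^ n
  rw [ENNReal.tsum_set_const, ← (PP_finite r n).cast_ncard_eq]
  rfl

/-- the growth rate -/
noncomputable def gr (r : ℕ) : ℝ :=
  Filter.limsup (fun n : ℕ => ((PP r n).ncard : ℝ) ^ ((1 : ℝ) / n)) Filter.atTop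

theorem gr_bdd (r : ℕ) : Filter.IsBoundedUnder (· ≤ ·) Filter.atTop
    (fun n : ℕ => ((PP r n).ncard : ℝ) ^ ((1 : ℝ) / n)) := by
  refine ⟨(r * 2 : ℕ) + 1, ?_⟩
  rw [Filter.eventually_map]
  filter_upwards [Filter.eventually_ge_atTop 1] with n hn
  have hn' : (n : ℝ) ≠ 0 := by positivity
  calc ((PP r n).ncard : ℝ) ^ ((1 : ℝ) / n) ≤ (((r * 2 : ℕ) : ℝ) ^ n) ^ ((1 : ℝ) / n) := by
        apply Real.rpow_le_rpow (by positivity) _ (by positivity)
        exact_mod_cast PP_card_le r n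
    _ = ((r * 2 : ℕ) : ℝ) := by
        rw [← Real.rpow_natCast, ← Real.rpow_mul (by positivity), mul_one_div_cancel hn',
          Real.rpow_one]
    _ ≤ _ := by linarith

/-- **the lower bound**, for lists of letters -/
theorem le_gr {r : ℕ} {z : ℝ} (x c : Fin r) (l : List (Fin r))
    (hn : (x :: c :: l).Nodup) (h0 : 0 < z) (h1 : z < 1)
    (hr : ∀ k < l.length, rho z (sg z k) < 1) (ht : 1 ≤ rho z (sg z l.length)) :
    1 / z ≤ gr r := by
  by_contra hcon
  rw [not_le] at hcon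
  obtain ⟨β, hβ1, hβ2⟩ := exists_between hcon
  have h2 := Filter.eventually_lt_of_limsup_lt hβ1 (gr_bdd r)
  have h3 := tsum_PP x c l hn h0 h1 hr ht
  have hβz : β * z < 1 := by
    rw [lt_div_iff₀ h0] at hβ2
    exact hβ2
  have h4 : ∀ᶠ n : ℕ in atTop, ‖((PP r n).ncard : ℝ) * z ^ n‖ ≤ (β * z) ^ n ∧ 0 ≤ β := by
    filter_upwards [h2, Filter.eventually_ge_atTop 1] with n hn hn1
    have hn' : (n : ℝ) ≠ 0 := by positivity
    have h5 : (0 : ℝ) ≤ ((PP r n).ncard : ℝ) ^ ((1 : ℝ) / n) := by positivity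
    have h6 : ((PP r n).ncard : ℝ) = (((PP r n).ncard : ℝ) ^ ((1 : ℝ) / n)) ^ n := by
      rw [← Real.rpow_natCast, ← Real.rpow_mul (by positivity), one_div_mul_cancel hn',
        Real.rpow_one]
    refine ⟨?_, by linarith⟩
    rw [Real.norm_of_nonneg (by positivity), mul_pow]
    gcongr
    rw [h6]
    exact pow_le_pow_left₀ h5 hn.le n
  obtain ⟨n0, hn0⟩ := h4.exists
  have hβ0 : 0 ≤ β * z := mul_nonneg hn0.2 h0.le
  have h5 : Summable (fun n : ℕ => ((PP r n).ncard : ℝ) * z ^ n) :=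
    Summable.of_norm_bounded_eventually_nat (summable_geometric_of_lt_one hβ0 hβz)
      (h4.mono fun n hn => hn.1)
  have h6 := ENNReal.ofReal_tsum_of_nonneg (fun n : ℕ => by positivity) h5
  have h7 : ∀ n : ℕ, ENNReal.ofReal (((PP r n).ncard : ℝ) * z ^ n) =
      ((PP r n).ncard : ℝ≥0∞) * ENNReal.ofReal z ^ n := by
    intro n
    rw [ENNReal.ofReal_mul (by positivity), ENNReal.ofReal_natCast, ENNReal.ofReal_pow h0.le]
  rw [tsum_congr h7, h3] at h6
  exact ENNReal.ofReal_ne_top h6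

/-- **the lower bound for every rank** -/
theorem le_gr' (r : ℕ) {z : ℝ} (h0 : 0 < z) (h1 : z < 1)
    (hr : ∀ k < r, rho z (sg z k) < 1) (ht : 1 ≤ rho z (sg z r)) :
    1 / z ≤ gr (r + 2) := by
  have hlen : (List.finRange (r + 2)).length = r + 2 := List.length_finRange
  have hnd := List.nodup_finRange (r + 2)
  match h : List.finRange (r + 2), hlen, hnd with
  | x :: c :: l, hlen, hnd =>
    have hl : l.length = r := by simpa using hlen
    exact le_gr x c l hnd h0 h1 (by rw [hl]; exact hr) (by rw [hl]; exact ht)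

theorem gr_three : (4.0632 : ℝ) ≤ gr 3 := by
  have h := le_gr' 1 (z := 1250 / 5079) (by norm_num) (by norm_num)
    (by
      intro k hk
      interval_cases k
      norm_num [rho, sg, Qf])
    (by norm_num [rho, sg, nxt, vf, Qf, Wf])
  norm_num at h
  linarith

theorem gr_four : (5.6507 : ℝ) ≤ gr 4 := by
  have h := le_gr' 2 (z := 10000 / 56507) (by norm_num) (by norm_num)
    (by
      intro k hk
      interval_cases k
      · norm_num [rho, sg, Qf]
      · norm_num [rho, sg, nxt, vf, Qf, Wf])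
    (by norm_num [rho, sg, nxt, vf, Qf, Wf])
  norm_num at h
  linarith

theorem gr_five : (7.2466 : ℝ) ≤ gr 5 := by
  have h := le_gr' 3 (z := 5000 / 36233) (by norm_num) (by norm_num)
    (by
      intro k hk
      interval_cases k
      · norm_num [rho, sg, Qf]
      · norm_num [rho, sg, nxt, vf, Qf, Wf]
      · norm_num [rho, sg, nxt, vf, Qf, Wf])
    (by norm_num [rho, sg, nxt, vf, Qf, Wf])
  norm_num at h
  linarith

end Pool.Agent.Helper60.PPL
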