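import Pool.Agent.Helper60.PPL.GF

set_option autoImplicit false

/-! The recursion of the generating functions. -/

namespace Pool.Agent.Helper60.PPL

open scoped ENNReal

/-- positive runs -/
noncomputable def Qf (z : ℝ) : ℝ := z / (1 - z)

/-- all runs -/
noncomputable def Wf (z : ℝ) : ℝ := (1 + z) / (1 - z)

/-- the weight of one period of the level above `t` -/
noncomputable def rho (z t : ℝ) : ℝ := z * (1 + t) + z ^ 2 * Qf z ^ 2

/-- words after a positive letter -/
noncomputable def vf (z t : ℝ) : ℝ := (t + z * Qf z ^ 2) / (1 - rho z t)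

/-- one step of the recursion -/
noncomputable def nxt (z t : ℝ) : ℝ :=
  2 * Qf z + Wf z ^ 2 * (t + z * t * vf z t + z * Qf z * (Qf z + z * Qf z * vf z t))

/-- nonempty segments over `m + 1` letters -/
noncomputable def sg (z : ℝ) : ℕ → ℝ
  | 0 => 2 * Qf z
  | m + 1 => nxt z (sg z m)

section
variable {z : ℝ} (h0 : 0 < z) (h1 : z < 1)
include h0 h1

theorem Qf_pos : 0 < Qf z := by unfold Qf; have : 0 < 1 - z := by linarith
                                positivity

theorem Wf_pos : 0 < Wf z := by unfold Wf; have : 0 < 1 - z := by linarith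
                                positivity

theorem ofReal_Q : ENNReal.ofReal z * (1 - ENNReal.ofReal z)⁻¹ = ENNReal.ofReal (Qf z) := by
  have h2 : (0 : ℝ) < 1 - z := by linarith
  rw [← ENNReal.ofReal_one, ← ENNReal.ofReal_sub _ h0.le, ← ENNReal.ofReal_inv_of_pos h2,
    ← ENNReal.ofReal_mul h0.le]
  rfl

theorem ofReal_W : (1 - ENNReal.ofReal z)⁻¹ + ENNReal.ofReal z * (1 - ENNReal.ofReal z)⁻¹ =
    ENNReal.ofReal (Wf z) := by
  have h2 : (0 : ℝ) < 1 - z := by linarith
  rw [← ENNReal.ofReal_one, ← ENNReal.ofReal_sub _ h0.le, ← ENNReal.ofReal_inv_of_pos h2,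
    ← ENNReal.ofReal_mul h0.le, ← ENNReal.ofReal_add (by positivity) (by positivity)]
  congr 1
  unfold Wf
  field_simp

/-- the core computation -/
theorem core {t : ℝ} (ht : 0 < t) (hr : rho z t < 1) {S S1 C Vt Vf Uu : ℝ≥0∞}
    (hS1 : ENNReal.ofReal t ≤ S1) (hS : 1 + S1 ≤ S) (hC : ENNReal.ofReal (Qf z) ≤ C)
    (e1 : S1 + S * ENNReal.ofReal z * Vt + C * ENNReal.ofReal z * Vf ≤ Vt)
    (e2 : C + C * ENNReal.ofReal z * Vt ≤ Vf)
    (e3 : S1 + S1 * ENNReal.ofReal z * Vt + C * ENNReal.ofReal z * Vf ≤ Uu) :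
    ENNReal.ofReal (t + z * t * vf z t + z * Qf z * (Qf z + z * Qf z * vf z t)) ≤ Uu := by
  by_cases hU : Uu = ⊤
  · rw [hU]; exact le_top
  have hQ := Qf_pos h0 h1
  have hS1' : ENNReal.ofReal t ≠ 0 := by rw [Ne, ENNReal.ofReal_eq_zero]; linarith
  have hz' : ENNReal.ofReal z ≠ 0 := by rw [Ne, ENNReal.ofReal_eq_zero]; linarith
  have hQ' : ENNReal.ofReal (Qf z) ≠ 0 := by rw [Ne, ENNReal.ofReal_eq_zero]; linarith
  have hVt : Vt ≠ ⊤ := by
    intro h
    apply hU
    rw [eq_top_iff]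
    refine le_trans ?_ e3
    refine le_trans (le_of_eq ?_) (le_trans le_add_self (le_self_add))
    rw [h, ENNReal.mul_top]
    refine mul_ne_zero (fun h => ?_) hz'
    rw [h] at hS1
    exact hS1' (le_antisymm hS1 bot_le)
  have hVf : Vf ≠ ⊤ := by
    intro h
    apply hU
    rw [eq_top_iff]
    refine le_trans ?_ e3
    refine le_trans (le_of_eq ?_) le_add_self
    rw [h, ENNReal.mul_top]
    refine mul_ne_zero (fun h => ?_) hz'
    rw [h] at hC
    exact hQ' (le_antisymm hC bot_le)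
  have f1 : ENNReal.ofReal t + (1 + ENNReal.ofReal t) * ENNReal.ofReal z * Vt +
      ENNReal.ofReal (Qf z) * ENNReal.ofReal z * Vf ≤ Vt := by
    refine le_trans ?_ e1
    gcongr
    exact le_trans (by gcongr) hS
  have f2 : ENNReal.ofReal (Qf z) + ENNReal.ofReal (Qf z) * ENNReal.ofReal z * Vt ≤ Vf := by
    refine le_trans ?_ e2
    gcongr
  have f3 : ENNReal.ofReal t + ENNReal.ofReal t * ENNReal.ofReal z * Vt +
      ENNReal.ofReal (Qf z) * ENNReal.ofReal z * Vf ≤ Uu := by
    refine le_trans ?_ e3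
    gcongr
  obtain ⟨v, hv, rfl⟩ : ∃ v : ℝ, 0 ≤ v ∧ Vt = ENNReal.ofReal v :=
    ⟨Vt.toReal, ENNReal.toReal_nonneg, (ENNReal.ofReal_toReal hVt).symm⟩
  obtain ⟨v', hv', rfl⟩ : ∃ v : ℝ, 0 ≤ v ∧ Vf = ENNReal.ofReal v :=
    ⟨Vf.toReal, ENNReal.toReal_nonneg, (ENNReal.ofReal_toReal hVf).symm⟩
  have g1 : t + (1 + t) * z * v + Qf z * z * v' ≤ v := by
    rw [← ENNReal.ofReal_le_ofReal_iff hv]
    rw [ENNReal.ofReal_add (by positivity) (by positivity),
      ENNReal.ofReal_add (by positivity) (by positivity), ENNReal.ofReal_mul (by positivity),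
      ENNReal.ofReal_mul (by positivity), ENNReal.ofReal_mul (by positivity),
      ENNReal.ofReal_mul (by positivity), ENNReal.ofReal_add (by positivity) (by positivity),
      ENNReal.ofReal_one]
    exact f1
  have g2 : Qf z + Qf z * z * v ≤ v' := by
    rw [← ENNReal.ofReal_le_ofReal_iff hv']
    rw [ENNReal.ofReal_add (by positivity) (by positivity), ENNReal.ofReal_mul (by positivity),
      ENNReal.ofReal_mul (by positivity)]
    exact f2
  have g3 : t + t * z * v + Qf z * z * v' ≤ Uu.toReal := by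
    rw [← ENNReal.ofReal_le_iff_le_toReal hU]
    rw [ENNReal.ofReal_add (by positivity) (by positivity),
      ENNReal.ofReal_add (by positivity) (by positivity), ENNReal.ofReal_mul (by positivity),
      ENNReal.ofReal_mul (by positivity), ENNReal.ofReal_mul (by positivity),
      ENNReal.ofReal_mul (by positivity)]
    exact f3
  have hD : 0 < 1 - rho z t := by linarith
  have g4 : vf z t ≤ v := by
    unfold vf
    rw [div_le_iff₀ hD]
    have : Qf z * z * (Qf z + Qf z * z * v) ≤ Qf z * z * v' :=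
      mul_le_mul_of_nonneg_left g2 (by positivity)
    unfold rho
    nlinarith [this, g1]
  rw [ENNReal.ofReal_le_iff_le_toReal hU]
  refine le_trans ?_ g3
  have a1 : z * t * vf z t ≤ t * z * v := by
    rw [mul_comm z t]
    exact mul_le_mul_of_nonneg_left g4 (by positivity)
  have a2 : z * Qf z * (Qf z + z * Qf z * vf z t) ≤ Qf z * z * v' := by
    rw [mul_comm z (Qf z)]
    refine mul_le_mul_of_nonneg_left (le_trans ?_ g2) (by positivity)
    gcongr
  linarith

/-- the top level -/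
theorem top_core {t : ℝ} (ht : 0 < t) (hr : 1 ≤ rho z t) {S C Pt Pf : ℝ≥0∞}
    (hS : 1 + ENNReal.ofReal t ≤ S) (hC : ENNReal.ofReal (Qf z) ≤ C)
    (e1 : 1 + S * ENNReal.ofReal z * Pt + C * ENNReal.ofReal z * Pf ≤ Pt)
    (e2 : C * ENNReal.ofReal z * Pt ≤ Pf) : Pt = ⊤ := by
  by_contra hP
  have hQ := Qf_pos h0 h1
  have hz' : ENNReal.ofReal z ≠ 0 := by rw [Ne, ENNReal.ofReal_eq_zero]; linarith
  have hQ' : ENNReal.ofReal (Qf z) ≠ 0 := by rw [Ne, ENNReal.ofReal_eq_zero]; linarith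
  have hPf : Pf ≠ ⊤ := by
    intro h
    apply hP
    rw [eq_top_iff]
    refine le_trans ?_ e1
    refine le_trans (le_of_eq ?_) le_add_self
    rw [h, ENNReal.mul_top]
    refine mul_ne_zero (fun h => ?_) hz'
    rw [h] at hC
    exact hQ' (le_antisymm hC bot_le)
  have f1 : 1 + (1 + ENNReal.ofReal t) * ENNReal.ofReal z * Pt +
      ENNReal.ofReal (Qf z) * ENNReal.ofReal z * Pf ≤ Pt := by
    refine le_trans ?_ e1
    gcongr
  have f2 : ENNReal.ofReal (Qf z) * ENNReal.ofReal z * Pt ≤ Pf := by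
    refine le_trans ?_ e2
    gcongr
  obtain ⟨v, hv, rfl⟩ : ∃ v : ℝ, 0 ≤ v ∧ Pt = ENNReal.ofReal v :=
    ⟨Pt.toReal, ENNReal.toReal_nonneg, (ENNReal.ofReal_toReal hP).symm⟩
  obtain ⟨v', hv', rfl⟩ : ∃ v : ℝ, 0 ≤ v ∧ Pf = ENNReal.ofReal v :=
    ⟨Pf.toReal, ENNReal.toReal_nonneg, (ENNReal.ofReal_toReal hPf).symm⟩
  have g1 : 1 + (1 + t) * z * v + Qf z * z * v' ≤ v := by
    rw [← ENNReal.ofReal_le_ofReal_iff hv]
    rw [ENNReal.ofReal_add (by positivity) (by positivity),
      ENNReal.ofReal_add (by positivity) (by positivity), ENNReal.ofReal_mul (by positivity),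
      ENNReal.ofReal_mul (by positivity), ENNReal.ofReal_mul (by positivity),
      ENNReal.ofReal_mul (by positivity), ENNReal.ofReal_add (by positivity) (by positivity),
      ENNReal.ofReal_one]
    exact f1
  have g2 : Qf z * z * v ≤ v' := by
    rw [← ENNReal.ofReal_le_ofReal_iff hv']
    rw [ENNReal.ofReal_mul (by positivity), ENNReal.ofReal_mul (by positivity)]
    exact f2
  have : Qf z * z * (Qf z * z * v) ≤ Qf z * z * v' :=
    mul_le_mul_of_nonneg_left g2 (by positivity)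
  unfold rho at hr
  have h5 : 0 ≤ (z * (1 + t) + z ^ 2 * Qf z ^ 2 - 1) * v :=
    mul_nonneg (by linarith) hv
  nlinarith [this, g1, h5]

end

variable {α : Type*}

theorem sg_pos {z : ℝ} (h0 : 0 < z) (h1 : z < 1) : ∀ m : ℕ, (∀ k < m, rho z (sg z k) < 1) →
    0 < sg z m
  | 0, _ => by
    have := Qf_pos h0 h1
    unfold sg
    positivity
  | m + 1, h => by
    have h2 := sg_pos h0 h1 m (fun k hk => h k (by omega))
    have h3 := Qf_pos h0 h1
    have h4 := Wf_pos h0 h1
    have h5 : 0 < 1 - rho z (sg z m) := by linarith [h m (by omega)]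
    have h6 : 0 < vf z (sg z m) := by unfold vf; positivity
    rw [sg, nxt]
    positivity

theorem nil_mem_T : ∀ l : List α, ([] : List (α × Bool)) ∈ T l
  | [] => rfl
  | x :: l => Or.inl ⟨0, true, rfl⟩

/-- lower bound for the generating function of the segments -/
theorem gf_level {z : ℝ} (h0 : 0 < z) (h1 : z < 1) : ∀ (m : ℕ) (l : List α) (x : α),
    (x :: l).Nodup → l.length = m → (∀ k < m, rho z (sg z k) < 1) →
    ENNReal.ofReal (sg z m) ≤ gf (ne (T (x :: l))) (ENNReal.ofReal z)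
  | 0, l, x, hn, hl, _ => by
    refine le_trans ?_ (gf_T (ENNReal.ofReal z) l hn)
    refine le_trans ?_ le_self_add
    rw [ofReal_Q h0 h1, ← ENNReal.ofReal_add (Qf_pos h0 h1).le (Qf_pos h0 h1).le, sg, two_mul]
  | m + 1, [], x, hn, hl, _ => by simp at hl
  | m + 1, c :: l, x, hn, hl, hr => by
    have ih := gf_level h0 h1 m l c (List.nodup_cons.1 hn).2 (by simpa using hl)
      (fun k hk => hr k (by omega))
    have hS := T_good' x (c :: l) hn
    have hC := Cc_good x (c :: l) (List.nodup_cons.1 hn).1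
    have hS' : ∀ s ∈ T (c :: l), ∀ a ∈ s, a.1 ≠ x := fun s hs => (hS s hs).2
    have hC' : ∀ s ∈ Cc (c :: l), ∀ a ∈ s, a.1 ≠ x := fun s hs => (hC s hs).2.2
    have hU := core h0 h1 (sg_pos h0 h1 m (fun k hk => hr k (by omega))) (hr m (by omega)) ih
      (gf_ne (ENNReal.ofReal z) (nil_mem_T (c :: l)))
      (by rw [← ofReal_Q h0 h1]; exact gf_Cc (ENNReal.ofReal z) c l)
      (gf_Vt (ENNReal.ofReal z) hS' hC') (gf_Vf (ENNReal.ofReal z) hC')
      (gf_U (ENNReal.ofReal z) hS' hC')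
    refine le_trans ?_ (gf_T (ENNReal.ofReal z) (c :: l) hn)
    rw [ofReal_W h0 h1, ofReal_Q h0 h1, sg, nxt]
    have h3 := Qf_pos h0 h1
    have h4 := Wf_pos h0 h1
    have h2 := sg_pos h0 h1 m (fun k hk => hr k (by omega))
    have h5 : 0 < 1 - rho z (sg z m) := by linarith [hr m (by omega)]
    have h6 : 0 < vf z (sg z m) := by unfold vf; positivity
    rw [ENNReal.ofReal_add (by positivity) (by positivity), two_mul,
      ENNReal.ofReal_add h3.le h3.le]
    gcongr
    rw [show ∀ u : ℝ, Wf z ^ 2 * u = Wf z * u * Wf z by intro u; ring,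
      ENNReal.ofReal_mul (by positivity), ENNReal.ofReal_mul (by positivity)]
    gcongr

/-- **divergence of the generating function of the chain language** -/
theorem gf_top {z : ℝ} (h0 : 0 < z) (h1 : z < 1) (x c : α) (l : List α) (hn : (x :: c :: l).Nodup)
    (hr : ∀ k < l.length, rho z (sg z k) < 1) (ht : 1 ≤ rho z (sg z l.length)) :
    gf {w | P x (T (c :: l)) (Cc (c :: l)) true w} (ENNReal.ofReal z) = ⊤ := by
  have ih := gf_level h0 h1 l.length l c (List.nodup_cons.1 hn).2 rfl hr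
  have hS := T_good' x (c :: l) hn
  have hC := Cc_good x (c :: l) (List.nodup_cons.1 hn).1
  have hS' : ∀ s ∈ T (c :: l), ∀ a ∈ s, a.1 ≠ x := fun s hs => (hS s hs).2
  have hC' : ∀ s ∈ Cc (c :: l), ∀ a ∈ s, a.1 ≠ x := fun s hs => (hC s hs).2.2
  refine top_core h0 h1 (sg_pos h0 h1 _ hr) ht ?_
    (by rw [← ofReal_Q h0 h1]; exact gf_Cc (ENNReal.ofReal z) c l)
    (gf_Pt (ENNReal.ofReal z) hS' hC') (gf_Pf (ENNReal.ofReal z) hC')
  exact le_trans (by gcongr) (gf_ne (ENNReal.ofReal z) (nil_mem_T (c :: l)))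

end Pool.Agent.Helper60.PPL
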