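import Mathlib

set_option autoImplicit false

/-! Potentially positive elements of free groups: the chain language and its automorphisms. -/

namespace Pool.Agent.Helper60.PPL

open FreeGroup

variable {α : Type*}

/-- words read after a positive (`true`) or negative (`false`) letter `x`, ending before the next
free run of `x` -/
inductive V (x : α) (S C : Set (List (α × Bool))) : Bool → List (α × Bool) → Prop
  | endp (s : List (α × Bool)) (hs : s ∈ S) (h : s ≠ []) : V x S C true s
  | endm (c : List (α × Bool)) (hc : c ∈ C) : V x S C false c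
  | pp (s w : List (α × Bool)) (hs : s ∈ S) (hw : V x S C true w) :
      V x S C true (s ++ (x, true) :: w)
  | pm (c w : List (α × Bool)) (hc : c ∈ C) (hw : V x S C false w) :
      V x S C true (c ++ (x, false) :: w)
  | mp (c w : List (α × Bool)) (hc : c ∈ C) (hw : V x S C true w) :
      V x S C false (c ++ (x, true) :: w)

/-- words read after a positive or negative letter `x`, ending with a positive `x` -/
inductive P (x : α) (S C : Set (List (α × Bool))) : Bool → List (α × Bool) → Prop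
  | nil : P x S C true []
  | pp (s w : List (α × Bool)) (hs : s ∈ S) (hw : P x S C true w) :
      P x S C true (s ++ (x, true) :: w)
  | pm (c w : List (α × Bool)) (hc : c ∈ C) (hw : P x S C false w) :
      P x S C true (c ++ (x, false) :: w)
  | mp (c w : List (α × Bool)) (hc : c ∈ C) (hw : P x S C true w) :
      P x S C false (c ++ (x, true) :: w)

/-- the inner parts of the segments -/
def U (x : α) (S C : Set (List (α × Bool))) : Set (List (α × Bool)) :=
  {u | (u ∈ S ∧ u ≠ []) ∨
    (∃ s w, s ∈ S ∧ s ≠ [] ∧ V x S C true w ∧ u = s ++ (x, true) :: w) ∨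
    (∃ c w, c ∈ C ∧ V x S C false w ∧ u = c ++ (x, false) :: w)}

theorem U_V {x : α} {S C : Set (List (α × Bool))} {u : List (α × Bool)} (h : u ∈ U x S C) :
    V x S C true u := by
  rcases h with ⟨h1, h2⟩ | ⟨s, w, h1, h2, h3, rfl⟩ | ⟨c, w, h1, h2, rfl⟩
  · exact V.endp u h1 h2
  · exact V.pp s w h1 h3
  · exact V.pm c w h1 h2

/-- positive runs of the first letter of the list -/
def Cc : List α → Set (List (α × Bool))
  | [] => ∅
  | c :: _ => {w | ∃ n : ℕ, w = List.replicate (n + 1) (c, true)}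

/-- segments over the letters of the list -/
def T : List α → Set (List (α × Bool))
  | [] => {[]}
  | x :: l => {w | (∃ (n : ℕ) (b : Bool), w = List.replicate n (x, b)) ∨
      ∃ (n : ℕ) (b : Bool) (u : List (α × Bool)) (m : ℕ) (b' : Bool), u ∈ U x (T l) (Cc l) ∧
        w = List.replicate n (x, b) ++ (u ++ List.replicate m (x, b'))}

/-- letters of the words -/
theorem V_letters {x : α} {l : List α} {S C : Set (List (α × Bool))}
    (hS : ∀ w ∈ S, ∀ a ∈ w, a.1 ∈ l) (hC : ∀ w ∈ C, ∀ a ∈ w, a.1 ∈ l) {b : Bool}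
    {w : List (α × Bool)} (h : V x S C b w) : ∀ a ∈ w, a.1 ∈ x :: l := by
  induction h with
  | endp s hs h => intro a ha; exact List.mem_cons_of_mem _ (hS s hs a ha)
  | endm c hc => intro a ha; exact List.mem_cons_of_mem _ (hC c hc a ha)
  | pp s w hs hw ih =>
    intro a ha
    rcases List.mem_append.1 ha with ha | ha
    · exact List.mem_cons_of_mem _ (hS s hs a ha)
    · rcases List.mem_cons.1 ha with rfl | ha
      · simp
      · exact ih a ha
  | pm c w hc hw ih =>
    intro a ha
    rcases List.mem_append.1 ha with ha | ha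
    · exact List.mem_cons_of_mem _ (hC c hc a ha)
    · rcases List.mem_cons.1 ha with rfl | ha
      · simp
      · exact ih a ha
  | mp c w hc hw ih =>
    intro a ha
    rcases List.mem_append.1 ha with ha | ha
    · exact List.mem_cons_of_mem _ (hC c hc a ha)
    · rcases List.mem_cons.1 ha with rfl | ha
      · simp
      · exact ih a ha

theorem Cc_letters (l : List α) : ∀ w ∈ Cc l, ∀ a ∈ w, a.1 ∈ l := by
  cases l with
  | nil => intro w hw; exact absurd hw (by simp [Cc])
  | cons c l =>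
    rintro w ⟨n, rfl⟩ a ha
    rw [List.eq_of_mem_replicate ha]
    simp

theorem T_letters : ∀ l : List α, ∀ w ∈ T l, ∀ a ∈ w, a.1 ∈ l
  | [] => by
    intro w hw a ha
    rw [show w = [] from hw] at ha
    simp at ha
  | x :: l => by
    rintro w (⟨n, b, rfl⟩ | ⟨n, b, u, m, b', hu, rfl⟩) a ha
    · rw [List.eq_of_mem_replicate ha]; simp
    · rcases List.mem_append.1 ha with ha | ha
      · rw [List.eq_of_mem_replicate ha]; simp
      · rcases List.mem_append.1 ha with ha | ha
        · exact V_letters (T_letters l) (Cc_letters l) (U_V hu) a ha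
        · rw [List.eq_of_mem_replicate ha]; simp

/-! ### positive elements -/

/-- positive elements of the free group -/
def Pos (g : FreeGroup α) : Prop := ∃ L : List (α × Bool), (∀ a ∈ L, a.2 = true) ∧ g = mk L

theorem Pos.one : Pos (1 : FreeGroup α) := ⟨[], by simp, by rw [one_eq_mk]⟩

theorem Pos.of (x : α) : Pos (FreeGroup.of x) := ⟨[(x, true)], by simp, rfl⟩

theorem Pos.mul {g h : FreeGroup α} (hg : Pos g) (hh : Pos h) : Pos (g * h) := by
  obtain ⟨L, hL, rfl⟩ := hg
  obtain ⟨M, hM, rfl⟩ := hh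
  refine ⟨L ++ M, ?_, by rw [mul_mk]⟩
  intro a ha
  rcases List.mem_append.1 ha with ha | ha
  · exact hL a ha
  · exact hM a ha

theorem Pos.pow {g : FreeGroup α} (hg : Pos g) (n : ℕ) : Pos (g ^ n) := by
  induction n with
  | zero => rw [pow_zero]; exact Pos.one
  | succ n ih => rw [pow_succ]; exact ih.mul hg

theorem Pos.map {β : Type*} (f : FreeGroup α →* FreeGroup β) (hf : ∀ x, Pos (f (FreeGroup.of x)))
    {g : FreeGroup α} (hg : Pos g) : Pos (f g) := by
  obtain ⟨L, hL, rfl⟩ := hg
  induction L with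
  | nil => rw [← one_eq_mk, _root_.map_one]; exact Pos.one
  | cons a L ih =>
    have h1 : (mk (a :: L) : FreeGroup α) = FreeGroup.of a.1 * mk L := by
      have : a = (a.1, true) := by
        rw [← hL a (by simp)]
      rw [this]
      simp only [FreeGroup.of, mul_mk, List.singleton_append]
    rw [h1, _root_.map_mul]
    exact (hf _).mul (ih (fun b hb => hL b (List.mem_cons_of_mem _ hb)))

theorem mk_cons_true (x : α) (w : List (α × Bool)) :
    (mk ((x, true) :: w) : FreeGroup α) = FreeGroup.of x * mk w := by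
  simp only [FreeGroup.of, mul_mk, List.singleton_append]

theorem mk_cons_false (x : α) (w : List (α × Bool)) :
    (mk ((x, false) :: w) : FreeGroup α) = (FreeGroup.of x)⁻¹ * mk w := by
  simp only [FreeGroup.of, inv_mk, invRev, mul_mk]
  simp

theorem mk_append (v w : List (α × Bool)) : (mk (v ++ w) : FreeGroup α) = mk v * mk w := by
  rw [mul_mk]

theorem mk_replicate_true (x : α) (n : ℕ) :
    (mk (List.replicate n (x, true)) : FreeGroup α) = FreeGroup.of x ^ n := by
  induction n with
  | zero => rw [pow_zero]; rfl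
  | succ n ih => rw [List.replicate_succ, mk_cons_true, ih, pow_succ']

theorem mk_replicate_false (x : α) (n : ℕ) :
    (mk (List.replicate n (x, false)) : FreeGroup α) = (FreeGroup.of x ^ n)⁻¹ := by
  induction n with
  | zero => rw [pow_zero, inv_one]; rfl
  | succ n ih => rw [List.replicate_succ, mk_cons_false, ih, pow_succ, mul_inv_rev]

/-- a positive power of `A` beats a run of length at most `N` -/
theorem pow_mul_run (A : FreeGroup α) (x : α) (f : FreeGroup α →* FreeGroup α)
    (hA : f (FreeGroup.of x) = A) (N n : ℕ) (b : Bool) (h : n ≤ N) :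
    ∃ k : ℕ, N ≤ k + n ∧ A ^ N * f (mk (List.replicate n (x, b))) = A ^ k := by
  cases b with
  | true =>
    refine ⟨N + n, by omega, ?_⟩
    rw [mk_replicate_true, _root_.map_pow, hA, pow_add]
  | false =>
    refine ⟨N - n, by omega, ?_⟩
    rw [mk_replicate_false, _root_.map_inv, _root_.map_pow, hA, mul_inv_eq_iff_eq_mul, ← pow_add]
    congr 1
    omega

theorem run_mul_pow (A : FreeGroup α) (x : α) (f : FreeGroup α →* FreeGroup α)
    (hA : f (FreeGroup.of x) = A) (N n : ℕ) (b : Bool) (h : n ≤ N) :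
    ∃ k : ℕ, N ≤ k + n ∧ f (mk (List.replicate n (x, b))) * A ^ N = A ^ k := by
  cases b with
  | true =>
    refine ⟨n + N, by omega, ?_⟩
    rw [mk_replicate_true, _root_.map_pow, hA, pow_add]
  | false =>
    refine ⟨N - n, by omega, ?_⟩
    rw [mk_replicate_false, _root_.map_inv, _root_.map_pow, hA, inv_mul_eq_iff_eq_mul, ← pow_add]
    congr 1
    omega

variable [DecidableEq α]

/-- the endomorphism `x ↦ c^n x c^m` -/
noncomputable def tvh (x c : α) (n m : ℤ) : FreeGroup α →* FreeGroup α :=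
  FreeGroup.lift (fun y => if y = x then FreeGroup.of c ^ n * FreeGroup.of x * FreeGroup.of c ^ m
    else FreeGroup.of y)

theorem tvh_self (x c : α) (n m : ℤ) :
    tvh x c n m (FreeGroup.of x) = FreeGroup.of c ^ n * FreeGroup.of x * FreeGroup.of c ^ m := by
  simp [tvh]

theorem tvh_ne (x c : α) (n m : ℤ) (y : α) (h : y ≠ x) :
    tvh x c n m (FreeGroup.of y) = FreeGroup.of y := by
  simp [tvh, h]

theorem tvh_comp (x c : α) (hxc : c ≠ x) (n m n' m' : ℤ) (h1 : n + n' = 0) (h2 : m + m' = 0) :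
    (tvh x c n m).comp (tvh x c n' m') = MonoidHom.id _ := by
  apply FreeGroup.ext_hom
  intro y
  rw [MonoidHom.comp_apply, MonoidHom.id_apply]
  by_cases hy : y = x
  · subst hy
    rw [tvh_self, _root_.map_mul, _root_.map_mul, _root_.map_zpow, _root_.map_zpow, tvh_self, tvh_ne _ _ _ _ c hxc]
    have e1 : FreeGroup.of c ^ n' * (FreeGroup.of c ^ n * FreeGroup.of y * FreeGroup.of c ^ m) *
        FreeGroup.of c ^ m' = (FreeGroup.of c ^ n' * FreeGroup.of c ^ n) * FreeGroup.of y *
          (FreeGroup.of c ^ m * FreeGroup.of c ^ m') := by group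
    rw [e1, ← zpow_add, ← zpow_add, h2, show n' + n = 0 by omega]
    simp only [zpow_zero, one_mul, mul_one]
  · rw [tvh_ne _ _ _ _ y hy, tvh_ne _ _ _ _ y hy]

/-- the automorphism `x ↦ c^n x c^m` -/
noncomputable def tv (x c : α) (hxc : c ≠ x) (n m : ℤ) : FreeGroup α ≃* FreeGroup α :=
  MonoidHom.toMulEquiv (tvh x c n m) (tvh x c (-n) (-m))
    (tvh_comp x c hxc _ _ _ _ (by ring) (by ring)) (tvh_comp x c hxc _ _ _ _ (by ring) (by ring))

theorem tv_self (x c : α) (hxc : c ≠ x) (n m : ℤ) :
    tv x c hxc n m (FreeGroup.of x) = FreeGroup.of c ^ n * FreeGroup.of x * FreeGroup.of c ^ m :=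
  tvh_self x c n m

theorem tv_ne (x c : α) (hxc : c ≠ x) (n m : ℤ) (y : α) (h : y ≠ x) :
    tv x c hxc n m (FreeGroup.of y) = FreeGroup.of y :=
  tvh_ne x c n m y h

/-- a homomorphism fixing all letters of a word fixes the word -/
theorem hom_fix (f : FreeGroup α →* FreeGroup α) (w : List (α × Bool))
    (h : ∀ a ∈ w, f (FreeGroup.of a.1) = FreeGroup.of a.1) : f (mk w) = mk w := by
  induction w with
  | nil => rw [← one_eq_mk, _root_.map_one]
  | cons a w ih =>
    have ih' := ih (fun b hb => h b (List.mem_cons_of_mem _ hb))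
    obtain ⟨y, b⟩ := a
    have hy := h (y, b) (by simp)
    simp only at hy
    cases b with
    | true => rw [mk_cons_true, _root_.map_mul, ih', hy]
    | false => rw [mk_cons_false, _root_.map_mul, _root_.map_inv, ih', hy]

/-! ### the step -/

section step

variable (x c : α) (l : List α) (N : ℕ) (ψ : FreeGroup α →* FreeGroup α) (E : FreeGroup α)

/-- data of the step -/
structure Stp : Prop where
  hx : ψ (FreeGroup.of x) = E ^ N * FreeGroup.of x * E ^ N
  hc : ψ (FreeGroup.of c) = E
  hE : ∃ p, Pos p ∧ E = p * FreeGroup.of x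
  hS : ∀ s ∈ T (c :: l), s.length ≤ N → Pos (E ^ N * ψ (mk s) * E ^ N)

variable {x c l N ψ E}

theorem Stp.posE (h : Stp x c l N ψ E) : Pos E := by
  obtain ⟨p, hp, rfl⟩ := h.hE
  exact hp.mul (Pos.of x)

theorem Stp.cX (h : Stp x c l N ψ E) (n : ℕ) :
    Pos (E ^ (n + 1) * (FreeGroup.of x)⁻¹) := by
  obtain ⟨p, hp, hE⟩ := h.hE
  have : E ^ (n + 1) * (FreeGroup.of x)⁻¹ = E ^ n * p := by
    rw [pow_succ]
    nth_rw 2 [hE]
    group
  rw [this]
  exact (h.posE.pow n).mul hp

theorem stpV (h : Stp x c l N ψ E) {b : Bool} {w : List (α × Bool)}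
    (hw : V x (T (c :: l)) (Cc (c :: l)) b w) : w.length ≤ N →
    (b = true → Pos (FreeGroup.of x * E ^ N * ψ (mk w) * E ^ N * FreeGroup.of x)) ∧
    (b = false → Pos ((E ^ N)⁻¹ * ψ (mk w) * E ^ N * FreeGroup.of x)) := by
  induction hw with
  | endp s hs h' =>
    intro hl
    refine ⟨fun _ => ?_, fun hb => by simp at hb⟩
    have := ((Pos.of x).mul (h.hS s hs hl)).mul (Pos.of x)
    simpa only [mul_assoc] using this
  | endm c' hc =>
    intro hl
    refine ⟨fun hb => by simp at hb, fun _ => ?_⟩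
    obtain ⟨n, rfl⟩ := hc
    rw [mk_replicate_true, _root_.map_pow, h.hc]
    have : (E ^ N)⁻¹ * E ^ (n + 1) * E ^ N * FreeGroup.of x = E ^ (n + 1) * FreeGroup.of x := by
      rw [mul_assoc (E ^ N)⁻¹, ← pow_add, add_comm, pow_add, ← mul_assoc, inv_mul_cancel, one_mul]
    rw [this]
    exact (h.posE.pow _).mul (Pos.of x)
  | pp s w hs hw ih =>
    intro hl
    rw [List.length_append, List.length_cons] at hl
    refine ⟨fun _ => ?_, fun hb => by simp at hb⟩
    have h1 := (ih (by omega)).1 rfl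
    have h2 := h.hS s hs (by omega)
    rw [mk_append, mk_cons_true, _root_.map_mul, _root_.map_mul, h.hx]
    have := ((Pos.of x).mul h2).mul h1
    simpa only [mul_assoc] using this
  | pm c' w hc hw ih =>
    intro hl
    rw [List.length_append, List.length_cons] at hl
    refine ⟨fun _ => ?_, fun hb => by simp at hb⟩
    obtain ⟨n, rfl⟩ := hc
    have h1 := (ih (by omega)).2 rfl
    rw [mk_append, mk_cons_false, _root_.map_mul, _root_.map_mul, _root_.map_inv, h.hx, mk_replicate_true, _root_.map_pow,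
      h.hc]
    have e : FreeGroup.of x * E ^ N * (E ^ (n + 1) * ((E ^ N * FreeGroup.of x * E ^ N)⁻¹ *
        ψ (mk w))) * E ^ N * FreeGroup.of x = FreeGroup.of x * (E ^ (n + 1) * (FreeGroup.of x)⁻¹) *
        ((E ^ N)⁻¹ * ψ (mk w) * E ^ N * FreeGroup.of x) := by
      have : E ^ N * E ^ (n + 1) = E ^ (n + 1) * E ^ N := by rw [← pow_add, ← pow_add, add_comm]
      rw [mul_assoc (FreeGroup.of x) (E ^ N), ← mul_assoc (E ^ N) (E ^ (n + 1)), this]
      group
    rw [e]
    exact ((Pos.of x).mul (h.cX n)).mul h1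
  | mp c' w hc hw ih =>
    intro hl
    rw [List.length_append, List.length_cons] at hl
    refine ⟨fun hb => by simp at hb, fun _ => ?_⟩
    obtain ⟨n, rfl⟩ := hc
    have h1 := (ih (by omega)).1 rfl
    rw [mk_append, mk_cons_true, _root_.map_mul, _root_.map_mul, h.hx, mk_replicate_true, _root_.map_pow, h.hc]
    have e : (E ^ N)⁻¹ * (E ^ (n + 1) * (E ^ N * FreeGroup.of x * E ^ N * ψ (mk w))) * E ^ N *
        FreeGroup.of x = E ^ (n + 1) * (FreeGroup.of x * E ^ N * ψ (mk w) * E ^ N *
          FreeGroup.of x) := by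
      have : (E ^ N)⁻¹ * E ^ (n + 1) * E ^ N = E ^ (n + 1) := by
        rw [mul_assoc, ← pow_add, add_comm, pow_add, ← mul_assoc, inv_mul_cancel, one_mul]
      simp only [← mul_assoc]
      rw [this]
    rw [e]
    exact (h.posE.pow _).mul h1

theorem stpP (h : Stp x c l N ψ E) {b : Bool} {w : List (α × Bool)}
    (hw : P x (T (c :: l)) (Cc (c :: l)) b w) : w.length ≤ N →
    (b = true → Pos (FreeGroup.of x * E ^ N * ψ (mk w))) ∧
    (b = false → Pos ((E ^ N)⁻¹ * ψ (mk w))) := by
  induction hw with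
  | nil =>
    intro _
    refine ⟨fun _ => ?_, fun hb => by simp at hb⟩
    rw [← one_eq_mk, _root_.map_one, mul_one]
    exact (Pos.of x).mul (h.posE.pow _)
  | pp s w hs hw ih =>
    intro hl
    rw [List.length_append, List.length_cons] at hl
    refine ⟨fun _ => ?_, fun hb => by simp at hb⟩
    have h1 := (ih (by omega)).1 rfl
    have h2 := h.hS s hs (by omega)
    rw [mk_append, mk_cons_true, _root_.map_mul, _root_.map_mul, h.hx]
    have := ((Pos.of x).mul h2).mul h1
    simpa only [mul_assoc] using this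
  | pm c' w hc hw ih =>
    intro hl
    rw [List.length_append, List.length_cons] at hl
    refine ⟨fun _ => ?_, fun hb => by simp at hb⟩
    obtain ⟨n, rfl⟩ := hc
    have h1 := (ih (by omega)).2 rfl
    rw [mk_append, mk_cons_false, _root_.map_mul, _root_.map_mul, _root_.map_inv, h.hx, mk_replicate_true, _root_.map_pow,
      h.hc]
    have e : FreeGroup.of x * E ^ N * (E ^ (n + 1) * ((E ^ N * FreeGroup.of x * E ^ N)⁻¹ *
        ψ (mk w))) = FreeGroup.of x * (E ^ (n + 1) * (FreeGroup.of x)⁻¹) *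
        ((E ^ N)⁻¹ * ψ (mk w)) := by
      have : E ^ N * E ^ (n + 1) = E ^ (n + 1) * E ^ N := by rw [← pow_add, ← pow_add, add_comm]
      rw [mul_assoc (FreeGroup.of x) (E ^ N), ← mul_assoc (E ^ N) (E ^ (n + 1)), this]
      group
    rw [e]
    exact ((Pos.of x).mul (h.cX n)).mul h1
  | mp c' w hc hw ih =>
    intro hl
    rw [List.length_append, List.length_cons] at hl
    refine ⟨fun hb => by simp at hb, fun _ => ?_⟩
    obtain ⟨n, rfl⟩ := hc
    have h1 := (ih (by omega)).1 rfl
    rw [mk_append, mk_cons_true, _root_.map_mul, _root_.map_mul, h.hx, mk_replicate_true, _root_.map_pow, h.hc]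
    have e : (E ^ N)⁻¹ * (E ^ (n + 1) * (E ^ N * FreeGroup.of x * E ^ N * ψ (mk w))) =
        E ^ (n + 1) * (FreeGroup.of x * E ^ N * ψ (mk w)) := by
      have : (E ^ N)⁻¹ * E ^ (n + 1) * E ^ N = E ^ (n + 1) := by
        rw [mul_assoc, ← pow_add, add_comm, pow_add, ← mul_assoc, inv_mul_cancel, one_mul]
      simp only [← mul_assoc]
      rw [this]
    rw [e]
    exact (h.posE.pow _).mul h1

/-- positivity of the segments of the next level -/
theorem stpT (h : Stp x c l N ψ E) {s : List (α × Bool)} (hs : s ∈ T (x :: c :: l))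
    (hl : s.length ≤ N) : Pos (ψ (FreeGroup.of x) ^ N * ψ (mk s) * ψ (FreeGroup.of x) ^ N) := by
  set A := ψ (FreeGroup.of x) with hA
  have hAp : Pos A := by
    rw [hA, h.hx]
    exact ((h.posE.pow _).mul (Pos.of x)).mul (h.posE.pow _)
  rcases hs with ⟨n, b, rfl⟩ | ⟨n, b, u, m, b', hu, rfl⟩
  · rw [List.length_replicate] at hl
    obtain ⟨k, hk, e⟩ := pow_mul_run A x ψ rfl N n b hl
    rw [e]
    exact (hAp.pow _).mul (hAp.pow _)
  · rw [List.length_append, List.length_append, List.length_replicate,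
      List.length_replicate] at hl
    have hu0 : 1 ≤ u.length := by
      rcases hu with ⟨_, h2⟩ | ⟨s, w, _, _, _, rfl⟩ | ⟨c, w, _, _, rfl⟩
      · exact List.length_pos_of_ne_nil h2
      · simp
        omega
      · simp
        omega
    obtain ⟨k, hk, e⟩ := pow_mul_run A x ψ rfl N n b (by omega)
    obtain ⟨k', hk', e'⟩ := run_mul_pow A x ψ rfl N m b' (by omega)
    rw [mk_append, mk_append, _root_.map_mul, _root_.map_mul, ← mul_assoc, e]
    rw [mul_assoc, mul_assoc (ψ (mk u)), e']
    obtain ⟨j, rfl⟩ : ∃ j, k = j + 1 := ⟨k - 1, by omega⟩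
    obtain ⟨j', rfl⟩ : ∃ j', k' = j' + 1 := ⟨k' - 1, by omega⟩
    have h1 := (stpV h (U_V hu) (by omega)).1 rfl
    have e2 : A ^ (j + 1) * (ψ (mk u) * A ^ (j' + 1)) = A ^ j * (E ^ N *
        (FreeGroup.of x * E ^ N * ψ (mk u) * E ^ N * FreeGroup.of x) * E ^ N) * A ^ j' := by
      rw [pow_succ, pow_succ']
      nth_rw 2 [hA]
      nth_rw 2 [hA]
      rw [h.hx]
      simp only [mul_assoc]
    rw [e2]
    exact ((hAp.pow _).mul (((h.posE.pow _).mul h1).mul (h.posE.pow _))).mul (hAp.pow _)

end step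

/-- the step is realised by automorphisms -/
theorem exists_stp (N : ℕ) (x c : α) (l : List α) (hn : (x :: c :: l).Nodup)
    (θ : FreeGroup α ≃* FreeGroup α) (h0 : ∀ y ∉ c :: l, θ (FreeGroup.of y) = FreeGroup.of y)
    (h1 : ∃ p, Pos p ∧ θ (FreeGroup.of c) = p * FreeGroup.of c)
    (h2 : ∀ s ∈ T (c :: l), s.length ≤ N →
      Pos (θ (FreeGroup.of c) ^ N * θ (mk s) * θ (FreeGroup.of c) ^ N)) :
    ∃ (ψ : FreeGroup α ≃* FreeGroup α) (E : FreeGroup α), Stp x c l N ψ.toMonoidHom E ∧
      (∀ y ∉ x :: c :: l, ψ (FreeGroup.of y) = FreeGroup.of y) := by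
  rw [List.nodup_cons] at hn
  obtain ⟨hx, hn'⟩ := hn
  have hcx : c ≠ x := fun h => hx (by simp [h])
  set φ := tv x c hcx N N with hφ
  set β := tv c x hcx.symm 0 1 with hβ
  have hβpos : ∀ g, Pos g → Pos (β g) := by
    intro g hg
    refine Pos.map β.toMonoidHom ?_ hg
    intro y
    by_cases hy : y = c
    · subst hy
      have : β.toMonoidHom (FreeGroup.of y) = FreeGroup.of y * FreeGroup.of x := by
        change β (FreeGroup.of y) = _
        rw [hβ, tv_self, zpow_zero, zpow_one, one_mul]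
      rw [this]
      exact (Pos.of _).mul (Pos.of _)
    · have : β.toMonoidHom (FreeGroup.of y) = FreeGroup.of y := by
        change β (FreeGroup.of y) = _
        rw [hβ, tv_ne _ _ _ _ _ y hy]
      rw [this]
      exact Pos.of _
  have hβc : β (FreeGroup.of c) = FreeGroup.of c * FreeGroup.of x := by
    rw [hβ, tv_self, zpow_zero, zpow_one, one_mul]
  have hβx : β (FreeGroup.of x) = FreeGroup.of x := by
    rw [hβ, tv_ne _ _ _ _ _ x hcx.symm]
  have hθx : θ (FreeGroup.of x) = FreeGroup.of x := h0 x hx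
  have hφx : φ (FreeGroup.of x) = FreeGroup.of c ^ N * FreeGroup.of x * FreeGroup.of c ^ N := by
    rw [hφ, tv_self, zpow_natCast]
  have hφc : φ (FreeGroup.of c) = FreeGroup.of c := by
    rw [hφ, tv_ne _ _ _ _ _ c hcx]
  refine ⟨(φ.trans θ).trans β, β (θ (FreeGroup.of c)), ⟨?_, ?_, ?_, ?_⟩, ?_⟩
  · change β (θ (φ (FreeGroup.of x))) = _
    rw [hφx, _root_.map_mul, _root_.map_mul, _root_.map_mul, _root_.map_mul, _root_.map_pow, _root_.map_pow, hθx, hβx]
  · change β (θ (φ (FreeGroup.of c))) = _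
    rw [hφc]
  · obtain ⟨p, hp, e⟩ := h1
    refine ⟨β p * FreeGroup.of c, (hβpos p hp).mul (Pos.of c), ?_⟩
    rw [e, _root_.map_mul, hβc, mul_assoc]
  · intro s hs hsl
    have hφs : φ (mk s) = mk s := by
      refine hom_fix φ.toMonoidHom s ?_
      intro a ha
      have hal := T_letters _ s hs a ha
      change φ (FreeGroup.of a.1) = _
      rw [hφ, tv_ne _ _ _ _ _ a.1 (fun h => hx (by rw [← h]; exact hal))]
    change Pos (β (θ (FreeGroup.of c)) ^ N * β (θ (φ (mk s))) * β (θ (FreeGroup.of c)) ^ N)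
    rw [hφs, ← _root_.map_pow, ← _root_.map_mul, ← _root_.map_mul]
    exact hβpos _ (h2 s hs hsl)
  · intro y hy
    rw [List.mem_cons, not_or] at hy
    change β (θ (φ (FreeGroup.of y))) = _
    have hyc : y ≠ c := fun h => hy.2 (by simp [h])
    rw [hφ, tv_ne _ _ _ _ _ y hy.1, h0 y hy.2, hβ, tv_ne _ _ _ _ _ y hyc]

theorem V_single (x : α) {b : Bool} {w : List (α × Bool)}
    (h : V x (T ([] : List α)) (Cc ([] : List α)) b w) : False := by
  induction h with
  | endp s hs h => exact h hs
  | endm c hc => exact hc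
  | pp s w hs hw ih => exact ih
  | pm c w hc hw ih => exact ih
  | mp c w hc hw ih => exact ih

/-- the automorphisms of all levels -/
theorem auto (N : ℕ) : ∀ (l : List α) (c : α), (c :: l).Nodup →
    ∃ θ : FreeGroup α ≃* FreeGroup α, (∀ y ∉ c :: l, θ (FreeGroup.of y) = FreeGroup.of y) ∧
      (∃ p, Pos p ∧ θ (FreeGroup.of c) = p * FreeGroup.of c) ∧
      (∀ s ∈ T (c :: l), s.length ≤ N →
        Pos (θ (FreeGroup.of c) ^ N * θ (mk s) * θ (FreeGroup.of c) ^ N))
  | [], c => by
    intro _
    refine ⟨MulEquiv.refl _, fun _ _ => rfl, ⟨1, Pos.one, by rw [one_mul]; rfl⟩, ?_⟩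
    rintro s (⟨n, b, rfl⟩ | ⟨n, b, u, m, b', hu, rfl⟩) hl
    · rw [List.length_replicate] at hl
      obtain ⟨k, hk, e⟩ := pow_mul_run (FreeGroup.of c) c (MonoidHom.id _) rfl N n b hl
      change Pos (FreeGroup.of c ^ N * (MonoidHom.id _) (mk (List.replicate n (c, b))) *
        FreeGroup.of c ^ N)
      rw [e]
      exact ((Pos.of c).pow _).mul ((Pos.of c).pow _)
    · exact (V_single c (U_V hu)).elim
  | d :: l, c => by
    intro hn
    obtain ⟨θ, h0, h1, h2⟩ := auto N l d (List.nodup_cons.1 hn).2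
    obtain ⟨ψ, E, hψ, h3⟩ := exists_stp N c d l hn θ h0 h1 h2
    refine ⟨ψ, h3, ?_, ?_⟩
    · refine ⟨E ^ N * FreeGroup.of c * E ^ N * (FreeGroup.of c)⁻¹, ?_, ?_⟩
      · rcases Nat.eq_zero_or_pos N with hN | hN
        · subst hN
          simp only [pow_zero, one_mul, mul_one, mul_inv_cancel]
          exact Pos.one
        · obtain ⟨M, rfl⟩ : ∃ M, N = M + 1 := ⟨N - 1, by omega⟩
          rw [mul_assoc]
          exact ((hψ.posE.pow _).mul (Pos.of c)).mul (hψ.cX M)
      · rw [inv_mul_cancel_right]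
        exact hψ.hx
    · intro s hs hl
      exact stpT hψ hs hl

/-- **the words of the chain language are potentially positive** -/
theorem top_pos (x c : α) (l : List α) (hn : (x :: c :: l).Nodup) (w : List (α × Bool))
    (hw : P x (T (c :: l)) (Cc (c :: l)) true w) :
    ∃ ψ : FreeGroup α ≃* FreeGroup α, Pos (ψ (mk ((x, true) :: w))) := by
  obtain ⟨θ, h0, h1, h2⟩ := auto w.length l c (List.nodup_cons.1 hn).2
  obtain ⟨ψ, E, hψ, h3⟩ := exists_stp w.length x c l hn θ h0 h1 h2
  refine ⟨ψ, ?_⟩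
  have h4 := (stpP hψ hw le_rfl).1 rfl
  have e : ψ (mk ((x, true) :: w)) = E ^ w.length * (FreeGroup.of x * E ^ w.length *
      ψ (mk w)) := by
    rw [mk_cons_true, _root_.map_mul, show ψ (FreeGroup.of x) = _ from hψ.hx]
    simp only [mul_assoc]
  rw [e]
  exact (hψ.posE.pow _).mul h4

/-- positive elements have positive reduced words -/
theorem Pos.toWord {g : FreeGroup α} (h : Pos g) : ∀ a ∈ g.toWord, a.2 = true := by
  obtain ⟨L, hL, rfl⟩ := h
  have hr : FreeGroup.IsReduced L := by
    rw [FreeGroup.IsReduced, List.isChain_iff_forall_rel_of_append_cons_cons]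
    intro a b l₁ l₂ e _
    rw [hL a (by rw [e]; simp), hL b (by rw [e]; simp)]
  rw [toWord_mk, hr.reduce_eq]
  exact hL

end Pool.Agent.Helper60.PPL
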